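import Mathlib

set_option autoImplicit false

open Filter Topology

namespace Pool.Agent.H7.Pap

section Key
variable {H : Type*} [NormedAddCommGroup H] [InnerProductSpace ℝ H]

/-- the new norm -/
noncomputable def NN (φ : ℕ → H →ₗ[ℝ] ℝ) (x : H) : ℝ := ‖x‖ + ∑' k, (1/2 : ℝ)^k * |φ k x|

lemma summ (φ : ℕ → H →ₗ[ℝ] ℝ) (hφ : ∀ k x, |φ k x| ≤ 3 * ‖x‖) (x : H) :
    Summable (fun k => (1/2:ℝ)^k * |φ k x|) := by
  refine Summable.of_nonneg_of_le (fun k => by positivity)
    (fun k => mul_le_mul_of_nonneg_left (hφ k x) (by positivity)) ?_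
  exact (summable_geometric_two).mul_right _

lemma norm_deriv (p z : H) (hp : p ≠ 0) : HasDerivAt (fun h : ℝ => ‖p + h • z‖ + ‖p - h • z‖) 0 0 := by
  have h1 : DifferentiableAt ℝ (fun h : ℝ => ‖p + h • z‖) 0 := by
    refine DifferentiableAt.norm ℝ ?_ ?_
    · fun_prop
    · simpa using hp
  have h2 := h1.hasDerivAt
  set D := deriv (fun h : ℝ => ‖p + h • z‖) 0 with hD
  have h3 : HasDerivAt (fun h : ℝ => ‖p - h • z‖) (-D) 0 := by
    have h4 : HasDerivAt (fun h : ℝ => -h) (-1) 0 := hasDerivAt_neg 0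
    have h5 : HasDerivAt (fun h : ℝ => ‖p + h • z‖) D (-0) := by simpa using h2
    have := h5.comp (0:ℝ) h4
    refine (this.congr_deriv (by ring)).congr_of_eventuallyEq ?_
    refine Eventually.of_forall fun h => ?_
    simp [sub_eq_add_neg]
  refine (h2.add h3).congr_deriv (by ring)

lemma abs_pair {P Q : ℝ} (h : |Q| ≤ |P|) : |P + Q| + |P - Q| = 2 * |P| := by
  rcases abs_cases P with ⟨h1, h2⟩ | ⟨h1, h2⟩ <;> rcases abs_cases Q with ⟨h3, h4⟩ | ⟨h3, h4⟩ <;>
  rcases abs_cases (P + Q) with ⟨h5, h6⟩ | ⟨h5, h6⟩ <;> rcases abs_cases (P - Q) with ⟨h7, h8⟩ | ⟨h7, h8⟩ <;>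
  linarith

lemma key_le (φ : ℕ → H →ₗ[ℝ] ℝ) (hφ : ∀ k x, |φ k x| ≤ 3 * ‖x‖) (u : H →ₗ[ℝ] H)
    (hu : ∀ x, NN φ (u x) ≤ NN φ x) {p a w : H} (hp : u p = p) (ha : u a = a) (hw : u w = 0)
    (hp0 : p ≠ 0) (hpos : ∀ k, 5/8 ≤ φ k a) :
    ∑' k, (if φ k p = 0 then (1/2:ℝ)^k * φ k w else 0) ≤ 0 := by
  obtain ⟨τ, hτ, hτw⟩ : ∃ τ : ℝ, 0 < τ ∧ ∀ k, τ * |φ k w| ≤ 5/8 := by
    refine ⟨5 / (8 * (3 * ‖w‖ + 1)), by positivity, fun k => ?_⟩
    have := hφ k w
    rw [div_mul_eq_mul_div, div_le_iff₀ (by positivity)]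
    nlinarith [norm_nonneg w]
  set z : H := τ • w - a with hz
  have hin : ∀ h : ℝ, NN φ (p - h • a) + NN φ (p + h • a) ≤ NN φ (p + h • z) + NN φ (p - h • z) := by
    intro h
    have e1 : u (p + h • z) = p - h • a := by
      rw [hz, map_add, map_smul, map_sub, map_smul, hp, ha, hw]
      simp [sub_eq_add_neg]
    have e2 : u (p - h • z) = p + h • a := by
      rw [hz, map_sub, map_smul, map_sub, map_smul, hp, ha, hw]
      simp [sub_eq_add_neg]
    have h1 := hu (p + h • z)
    have h2 := hu (p - h • z)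
    rw [e1] at h1
    rw [e2] at h2
    linarith
  have hφz : ∀ k, φ k z = τ * φ k w - φ k a := by
    intro k; rw [hz, map_sub, map_smul, smul_eq_mul]
  let T : ℝ → ℕ → ℝ := fun h k => (1/2:ℝ)^k * ((|φ k (p + h • z)| + |φ k (p - h • z)| -
    |φ k (p - h • a)| - |φ k (p + h • a)|) / h)
  let f : ℝ → ℝ := fun h => (‖p + h • z‖ + ‖p - h • z‖) - (‖p + h • a‖ + ‖p - h • a‖)
  have h1 : ∀ h : ℝ, 0 < h → 0 ≤ f h / h + ∑' k, T h k := by
    intro h hh
    have hi := hin h
    unfold NN at hi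
    have s1 := summ φ hφ (p + h • z)
    have s2 := summ φ hφ (p - h • z)
    have s3 := summ φ hφ (p - h • a)
    have s4 := summ φ hφ (p + h • a)
    have e1 : ∑' k, T h k = (∑' k, (1/2:ℝ)^k * |φ k (p + h • z)| + ∑' k, (1/2:ℝ)^k * |φ k (p - h • z)| -
      ∑' k, (1/2:ℝ)^k * |φ k (p - h • a)| - ∑' k, (1/2:ℝ)^k * |φ k (p + h • a)|) / h := by
      rw [← s1.tsum_add s2, ← (s1.add s2).tsum_sub s3, ← ((s1.add s2).sub s3).tsum_sub s4, ← tsum_div_const]
      refine tsum_congr fun k => ?_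
      simp only [T]
      ring
    rw [e1, ← add_div]
    apply div_nonneg _ hh.le
    simp only [f]
    linarith
  have h2 : Tendsto (fun h => f h / h) (𝓝[>] 0) (𝓝 0) := by
    have h3 := (norm_deriv p z hp0).sub (norm_deriv p a hp0)
    have h4 := h3.tendsto_slope_zero_right
    refine (h4.congr' ?_).trans_eq (by simp)
    filter_upwards [self_mem_nhdsWithin] with h _
    simp [f]
    ring
  have h3 : Tendsto (fun h => ∑' k, T h k) (𝓝[>] 0)
      (𝓝 (∑' k, (if φ k p = 0 then -(2*τ) * ((1/2 : ℝ)^k * φ k w) else 0))) := by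
    refine tendsto_tsum_of_dominated_convergence (bound := fun k => (1/2 : ℝ)^k*(2*(5/8)))
      (summable_geometric_two.mul_right _) ?_ ?_
    · intro k
      have hak := hpos k
      have hwk := hτw k
      by_cases hk : φ k p = 0
      · rw [if_pos hk]
        refine tendsto_const_nhds.congr' ?_
        filter_upwards [self_mem_nhdsWithin] with h hh
        have hh' : 0 < h := hh
        simp only [T, map_add, map_sub, map_smul, smul_eq_mul, hk, zero_add, zero_sub, abs_neg, abs_mul]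
        rw [hφz, abs_of_pos hh', abs_of_nonneg (by linarith : 0 ≤ φ k a)]
        have : |τ * φ k w - φ k a| = φ k a - τ * φ k w := by
          rw [abs_of_nonpos]; · ring
          have := le_abs_self (φ k w)
          nlinarith
        rw [this]
        field_simp
        ring
      · rw [if_neg hk]
        have hP : 0 < |φ k p| := abs_pos.2 hk
        have e1 : Tendsto (fun h : ℝ => |h * φ k z|) (𝓝[>] 0) (𝓝 0) := by
          have : Continuous (fun h : ℝ => |h * φ k z|) := by fun_prop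
          have := this.tendsto 0
          simp only [zero_mul, abs_zero] at this
          exact this.mono_left nhdsWithin_le_nhds
        have e2 : Tendsto (fun h : ℝ => |h * φ k a|) (𝓝[>] 0) (𝓝 0) := by
          have : Continuous (fun h : ℝ => |h * φ k a|) := by fun_prop
          have := this.tendsto 0
          simp only [zero_mul, abs_zero] at this
          exact this.mono_left nhdsWithin_le_nhds
        refine tendsto_const_nhds.congr' ?_
        filter_upwards [e1.eventually (gt_mem_nhds hP), e2.eventually (gt_mem_nhds hP)] with h q1 q2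
        simp only [T, map_add, map_sub, map_smul, smul_eq_mul]
        have r1 := abs_pair (P := φ k p) (Q := h * φ k z) q1.le
        have r2 := abs_pair (P := φ k p) (Q := h * φ k a) q2.le
        have : |φ k p + h * φ k z| + |φ k p - h * φ k z| - |φ k p - h * φ k a| - |φ k p + h * φ k a| = 0 := by
          linarith
        rw [this]; simp
    · filter_upwards [self_mem_nhdsWithin] with h hh k
      have hh' : 0 < h := hh
      have hwk := hτw k
      simp only [T]
      rw [norm_mul, Real.norm_of_nonneg (by positivity : (0:ℝ) ≤ (1/2)^k), Real.norm_eq_abs, abs_div,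
        abs_of_pos hh']
      refine mul_le_mul_of_nonneg_left ?_ (by positivity)
      rw [div_le_iff₀ hh']
      have r1 : |(|φ k (p + h • z)| - |φ k (p - h • a)|)| ≤ h * (5/8) := by
        refine (abs_abs_sub_abs_le_abs_sub _ _).trans ?_
        rw [← map_sub]
        have : p + h • z - (p - h • a) = (h * τ) • w := by
          rw [hz, smul_sub, smul_smul]; abel
        rw [this, map_smul, smul_eq_mul, abs_mul, abs_mul, abs_of_pos hh', abs_of_pos hτ, mul_assoc]
        exact mul_le_mul_of_nonneg_left hwk hh'.le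
      have r2 : |(|φ k (p - h • z)| - |φ k (p + h • a)|)| ≤ h * (5/8) := by
        refine (abs_abs_sub_abs_le_abs_sub _ _).trans ?_
        rw [← map_sub]
        have : p - h • z - (p + h • a) = -((h * τ) • w) := by
          rw [hz, smul_sub, smul_smul]; abel
        rw [this, map_neg, abs_neg, map_smul, smul_eq_mul, abs_mul, abs_mul, abs_of_pos hh', abs_of_pos hτ, mul_assoc]
        exact mul_le_mul_of_nonneg_left hwk hh'.le
      have e : |φ k (p + h • z)| + |φ k (p - h • z)| - |φ k (p - h • a)| - |φ k (p + h • a)| =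
        (|φ k (p + h • z)| - |φ k (p - h • a)|) + (|φ k (p - h • z)| - |φ k (p + h • a)|) := by ring
      rw [e]
      refine (abs_add_le _ _).trans ?_
      linarith
  have h4 : 0 ≤ 0 + ∑' k, (if φ k p = 0 then -(2*τ) * ((1/2 : ℝ)^k * φ k w) else 0) :=
    ge_of_tendsto (h2.add h3) (by
      filter_upwards [self_mem_nhdsWithin] with h hh
      exact h1 h hh)
  rw [zero_add] at h4
  have h5 : ∑' k, (if φ k p = 0 then -(2*τ) * ((1/2 : ℝ)^k * φ k w) else 0) =
      -(2*τ) * ∑' k, (if φ k p = 0 then (1/2:ℝ)^k * φ k w else 0) := by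
    rw [← tsum_mul_left]
    refine tsum_congr fun k => ?_
    split_ifs <;> simp
  rw [h5] at h4
  nlinarith

lemma key (φ : ℕ → H →ₗ[ℝ] ℝ) (hφ : ∀ k x, |φ k x| ≤ 3 * ‖x‖) (u : H →ₗ[ℝ] H)
    (hu : ∀ x, NN φ (u x) ≤ NN φ x) {p a w : H} (hp : u p = p) (ha : u a = a) (hw : u w = 0)
    (hp0 : p ≠ 0) (hpos : ∀ k, 5/8 ≤ φ k a) :
    ∑' k, (if φ k p = 0 then (1/2:ℝ)^k * φ k w else 0) = 0 := by
  refine le_antisymm (key_le φ hφ u hu hp ha hw hp0 hpos) ?_
  have := key_le φ hφ u hu hp ha (w := -w) (by rw [map_neg, hw, neg_zero]) hp0 hpos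
  have h5 : ∑' k, (if φ k p = 0 then (1/2 : ℝ)^k * φ k (-w) else 0) =
      - ∑' k, (if φ k p = 0 then (1/2:ℝ)^k * φ k w else 0) := by
    rw [← tsum_neg]
    refine tsum_congr fun k => ?_
    split_ifs <;> simp
  rw [h5] at this
  linarith

end Key

end Pool.Agent.H7.Pap
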