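import Pool.Agent.H7.Pap.Space

set_option autoImplicit false

open Filter Topology

namespace Pool.Agent.H7.Pap

lemma coord_tendsto (x : H0) : Tendsto (fun i => x i) atTop (𝓝 0) := by
  have h1 := (lp.hasSum_norm (E := fun _ : ℕ => ℝ) (p := 2) (by norm_num) x).summable.tendsto_atTop_zero
  have h2 : Tendsto (fun i => Real.sqrt (‖x i‖ ^ (2:ℝ))) atTop (𝓝 (Real.sqrt 0)) := by
    refine (Real.continuous_sqrt.tendsto 0).comp ?_
    simpa using h1
  rw [Real.sqrt_zero] at h2
  rw [tendsto_zero_iff_norm_tendsto_zero]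
  refine h2.congr fun i => ?_
  rw [Real.rpow_two, Real.sqrt_sq (norm_nonneg _)]

lemma single_coord (i j : ℕ) : (lp.single 2 i (1:ℝ) : H0) j = if j = i then 1 else 0 := by
  rw [lp.single_apply]
  by_cases h : j = i
  · subst h; simp
  · simp [h]

section Neg

variable (a b : H0)

noncomputable def sk (k : ℕ) : ℝ := phi k b / phi k a

/-- functionals at a jump -/
noncomputable def Phi (σ : ℝ) : H0 →ₗ[ℝ] ℝ where
  toFun x := ∑' k, (if sk a b k = σ then (1/2:ℝ)^k * phi k x else 0)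
  map_add' x y := by
    have hs : ∀ x : H0, Summable (fun k => (if sk a b k = σ then (1/2:ℝ)^k * phi k x else 0)) := by
      intro x
      refine Summable.of_norm_bounded (g := fun k => (1/2:ℝ)^k * |phi k x|) (summ0 x) fun k => ?_
      split_ifs
      · rw [norm_mul, Real.norm_of_nonneg (by positivity : (0:ℝ) ≤ (1/2)^k)]; rfl
      · rw [norm_zero]; positivity
    rw [← (hs x).tsum_add (hs y)]
    refine tsum_congr fun k => ?_
    split_ifs
    · rw [map_add]; ring
    · simp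
  map_smul' c x := by
    rw [RingHom.id_apply, smul_eq_mul, ← tsum_mul_left]
    refine tsum_congr fun k => ?_
    split_ifs
    · rw [map_smul, smul_eq_mul]; ring
    · simp

lemma Phi_apply (σ : ℝ) (x : H0) : Phi a b σ x = ∑' k, (if sk a b k = σ then (1/2:ℝ)^k * phi k x else 0) := rfl

lemma Phi_single (σ : ℝ) (k : ℕ) : Phi a b σ (lp.single 2 (k+2) (1:ℝ)) = if sk a b k = σ then (1/2:ℝ)^k else 0 := by
  rw [Phi_apply, tsum_eq_single k]
  · have : phi k (lp.single 2 (k+2) (1:ℝ)) = 1 := by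
      rw [phi_apply, single_coord, single_coord, single_coord]
      simp
    rw [this, mul_one]
  · intro j hj
    have : phi j (lp.single 2 (k+2) (1:ℝ)) = 0 := by
      rw [phi_apply, single_coord, single_coord, single_coord]
      simp [hj]
    rw [this]; simp

variable {a b}

lemma sk_infinite (ha0 : 7/8 ≤ a 0) (ha1 : |a 1| ≤ 1/8) (hb0 : |b 0| ≤ 1/8) (hb1 : 7/8 ≤ b 1) :
    (Set.range (sk a b)).Infinite := by
  intro hfin
  obtain ⟨ha1', ha1''⟩ := abs_le.1 ha1
  obtain ⟨hb0', hb0''⟩ := abs_le.1 hb0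
  let m : ℕ → ℝ := fun j => (b 0 + 1 / ((j:ℝ) + 1) * b 1) / (a 0 + 1 / ((j:ℝ) + 1) * a 1)
  have hden : ∀ j : ℕ, 0 < a 0 + 1 / ((j:ℝ) + 1) * a 1 := by
    intro j
    have h1 : (0:ℝ) < 1 / ((j:ℝ) + 1) := by positivity
    have h2 : 1 / ((j:ℝ) + 1) ≤ 1 := by
      rw [div_le_one (by positivity)]
      have : (0:ℝ) ≤ j := Nat.cast_nonneg j
      linarith
    nlinarith
  have hm : ∀ j, m j ∈ Set.range (sk a b) := by
    intro j
    have hcl : IsClosed (Set.range (sk a b)) := hfin.isClosed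
    have ht : Tendsto (fun i : ℕ => sk a b (Nat.pair j i)) atTop (𝓝 (m j)) := by
      have hp : Tendsto (fun i : ℕ => Nat.pair j i + 2) atTop atTop :=
        tendsto_atTop_mono (fun i => (Nat.right_le_pair j i).trans (by omega)) tendsto_id
      have hx : ∀ x : H0, Tendsto (fun i : ℕ => phi (Nat.pair j i) x) atTop (𝓝 (x 0 + 1 / ((j:ℝ) + 1) * x 1)) := by
        intro x
        have h1 := (coord_tendsto x).comp hp
        have h2 := h1.const_add (x 0 + 1 / ((j:ℝ) + 1) * x 1)
        rw [add_zero] at h2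
        refine h2.congr fun i => ?_
        rw [phi_apply]
        unfold th
        rw [Nat.unpair_pair]
        rfl
      exact (hx b).div (hx a) (hden j).ne'
    exact hcl.mem_of_tendsto ht (Eventually.of_forall fun i => ⟨_, rfl⟩)
  have hinj : Function.Injective m := by
    intro i j hij
    have hi := hden i
    have hj := hden j
    have h1 := (div_eq_div_iff hi.ne' hj.ne').1 hij
    have h2 : (1 / ((i:ℝ) + 1) - 1 / ((j:ℝ) + 1)) * (b 1 * a 0 - b 0 * a 1) = 0 := by linarith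
    have h3 : 0 < b 1 * a 0 - b 0 * a 1 := by nlinarith
    have h4 : 1 / ((i:ℝ) + 1) - 1 / ((j:ℝ) + 1) = 0 := (mul_eq_zero.1 h2).resolve_right h3.ne'
    have h5 : 1 / ((i:ℝ) + 1) = 1 / ((j:ℝ) + 1) := by linarith
    rw [div_eq_div_iff (by positivity) (by positivity)] at h5
    have h6 : (i : ℝ) = j := by linarith
    exact_mod_cast h6
  exact Set.infinite_range_of_injective hinj (hfin.subset (Set.range_subset_iff.2 hm))

end Neg

lemma pap_neg (u : EE →L[ℝ] EE) (hfin : FiniteDimensional ℝ (LinearMap.range (u : EE →ₗ[ℝ] EE)))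
    (hidem : u.comp u = u) (hnorm : ‖u‖ ≤ 1)
    (h0 : ‖u (toE (lp.single 2 0 (1:ℝ))) - toE (lp.single 2 0 (1:ℝ))‖ ≤ 1/24)
    (h1 : ‖u (toE (lp.single 2 1 (1:ℝ))) - toE (lp.single 2 1 (1:ℝ))‖ ≤ 1/24) : False := by
  let v : H0 →ₗ[ℝ] H0 := toE.symm.toLinearMap ∘ₗ (u : EE →ₗ[ℝ] EE) ∘ₗ toE.toLinearMap
  have hv : ∀ x, v x = toE.symm (u (toE x)) := fun x => rfl
  have hvv : ∀ x, v (v x) = v x := by
    intro x
    rw [hv, hv, LinearEquiv.apply_symm_apply]
    have := congrArg (fun f : EE →L[ℝ] EE => f (toE x)) hidem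
    simp only [ContinuousLinearMap.comp_apply] at this
    rw [this]
  have hvN : ∀ x, NN phi (v x) ≤ NN phi x := by
    intro x
    have h2 := u.le_of_opNorm_le hnorm (toE x)
    rw [one_mul, norm_EE, norm_EE, LinearEquiv.symm_apply_apply] at h2
    exact h2
  set a : H0 := v (lp.single 2 0 (1:ℝ)) with ha
  set b : H0 := v (lp.single 2 1 (1:ℝ)) with hb
  have hva : v a = a := hvv _
  have hvb : v b = b := hvv _
  have hae : ‖a - lp.single 2 0 (1:ℝ)‖ ≤ 1/24 := by
    refine (N0_ge _).trans ?_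
    rw [norm_EE, map_sub, LinearEquiv.symm_apply_apply] at h0
    exact h0
  have hbe : ‖b - lp.single 2 1 (1:ℝ)‖ ≤ 1/24 := by
    refine (N0_ge _).trans ?_
    rw [norm_EE, map_sub, LinearEquiv.symm_apply_apply] at h1
    exact h1
  have hac : ∀ j, |a j - (lp.single 2 0 (1:ℝ) : H0) j| ≤ 1/24 := fun j => by
    have := coord_le (a - lp.single 2 0 (1:ℝ)) j
    rw [lp.coeFn_sub, Pi.sub_apply] at this
    exact this.trans hae
  have hbc : ∀ j, |b j - (lp.single 2 1 (1:ℝ) : H0) j| ≤ 1/24 := fun j => by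
    have := coord_le (b - lp.single 2 1 (1:ℝ)) j
    rw [lp.coeFn_sub, Pi.sub_apply] at this
    exact this.trans hbe
  have ha0 : 7/8 ≤ a 0 := by
    have := (abs_le.1 (hac 0)).1
    rw [single_coord] at this
    norm_num at this
    linarith
  have ha1 : |a 1| ≤ 1/8 := by
    have := hac 1
    rw [single_coord] at this
    norm_num at this
    linarith
  have hb0 : |b 0| ≤ 1/8 := by
    have := hbc 0
    rw [single_coord] at this
    norm_num at this
    linarith
  have hb1 : 7/8 ≤ b 1 := by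
    have := (abs_le.1 (hbc 1)).1
    rw [single_coord] at this
    norm_num at this
    linarith
  have hpos : ∀ k, 5/8 ≤ phi k a := by
    intro k
    have h2 := phi_bound k (a - lp.single 2 0 (1:ℝ))
    rw [map_sub] at h2
    have h3 : phi k (lp.single 2 0 (1:ℝ)) = 1 := by
      rw [phi_apply, single_coord, single_coord, single_coord]; simp
    rw [h3] at h2
    have := (abs_le.1 h2).1
    linarith
  have hkey : ∀ σ : ℝ, ∀ x : H0, Phi a b σ x = Phi a b σ (v x) := by
    intro σ x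
    have hp : v (b - σ • a) = b - σ • a := by rw [map_sub, map_smul, hva, hvb]
    have hp0 : b - σ • a ≠ 0 := by
      intro h
      have e0 : (b - σ • a) 0 = 0 := by rw [h]; rfl
      have e1 : (b - σ • a) 1 = 0 := by rw [h]; rfl
      rw [lp.coeFn_sub, Pi.sub_apply, lp.coeFn_smul, Pi.smul_apply, smul_eq_mul] at e0 e1
      obtain ⟨p1, p2⟩ := abs_le.1 ha1
      obtain ⟨q1, q2⟩ := abs_le.1 hb0
      have s1 : |σ| ≤ 1 := by
        by_contra hσ
        push Not at hσ
        have : |σ| * a 0 = |b 0| := by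
          rw [← abs_of_pos (by linarith : 0 < a 0), ← abs_mul]
          congr 1; linarith
        nlinarith
      have s2 : |σ * a 1| ≤ 1/8 := by
        rw [abs_mul]
        calc |σ| * |a 1| ≤ 1 * (1/8) := mul_le_mul s1 ha1 (abs_nonneg _) (by norm_num)
          _ = 1/8 := by norm_num
      have := (abs_le.1 s2).2
      linarith
    have hw : v (x - v x) = 0 := by rw [map_sub, hvv, sub_self]
    have h2 := key phi phi_bound v hvN hp hva hw hp0 hpos
    have h3 : Phi a b σ (x - v x) = 0 := by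
      rw [← h2, Phi_apply]
      refine tsum_congr fun k => ?_
      have : sk a b k = σ ↔ phi k (b - σ • a) = 0 := by
        unfold sk
        have hne : phi k a ≠ 0 := by have := hpos k; intro h; linarith
        rw [map_sub, map_smul, smul_eq_mul, div_eq_iff hne, sub_eq_zero]
      simp only [this]
    rw [map_sub] at h3
    linarith
  -- linear independence
  let F := LinearMap.range (u : EE →ₗ[ℝ] EE)
  let r : Set.range (sk a b) → Module.Dual ℝ F := fun σ =>
    (Phi a b σ.1) ∘ₗ toE.symm.toLinearMap ∘ₗ F.subtype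
  have hli : LinearIndependent ℝ r := by
    rw [linearIndependent_iff']
    intro t g hg i hi
    obtain ⟨k, hk⟩ := i.2
    have h2 := congrArg (fun f : Module.Dual ℝ F => f ⟨u (toE (lp.single 2 (k+2) (1:ℝ))), ⟨_, rfl⟩⟩) hg
    simp only [LinearMap.sum_apply, LinearMap.smul_apply, LinearMap.zero_apply] at h2
    have h3 : ∀ j ∈ t, g j • (r j) ⟨u (toE (lp.single 2 (k+2) (1:ℝ))), ⟨_, rfl⟩⟩ =
        if j = i then g j * (1/2:ℝ)^k else 0 := by
      intro j _
      have e1 : (r j) ⟨u (toE (lp.single 2 (k+2) (1:ℝ))), ⟨_, rfl⟩⟩ = Phi a b j.1 (v (lp.single 2 (k+2) (1:ℝ))) := rfl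
      rw [e1, ← hkey, Phi_single, smul_eq_mul]
      by_cases hji : j = i
      · subst hji
        rw [if_pos hk, if_pos rfl]
      · rw [if_neg hji, if_neg, mul_zero]
        intro h
        exact hji (Subtype.ext (h.symm.trans hk))
    rw [Finset.sum_congr rfl h3, Finset.sum_ite_eq' t i, if_pos hi] at h2
    exact (mul_eq_zero.1 h2).resolve_right (by positivity)
  have hfin2 : Finite (Set.range (sk a b)) := hli.finite
  exact sk_infinite ha0 ha1 hb0 hb1 (Set.toFinite _)

theorem main :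
    ¬ (∀ (𝕜 : Type) [RCLike 𝕜] (E : Type) [NormedAddCommGroup E] [NormedSpace 𝕜 E]
      [CompleteSpace E] [TopologicalSpace.SeparableSpace E] (lam : ℝ), 1 ≤ lam →
      (∀ δ : ℝ, 0 < δ → ∀ Q : Set E, IsCompact Q → ∀ ε : ℝ, 0 < ε →
        ∃ u : E →L[𝕜] E, FiniteDimensional 𝕜 (LinearMap.range (u : E →ₗ[𝕜] E)) ∧
          u.comp u = u ∧ ‖u‖ ≤ lam + δ ∧ ∀ x ∈ Q, ‖u x - x‖ ≤ ε) →
      (∀ Q : Set E, IsCompact Q → ∀ ε : ℝ, 0 < ε →
        ∃ u : E →L[𝕜] E, FiniteDimensional 𝕜 (LinearMap.range (u : E →ₗ[𝕜] E)) ∧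
          u.comp u = u ∧ ‖u‖ ≤ lam ∧ ∀ x ∈ Q, ‖u x - x‖ ≤ ε)) := by
  intro h
  obtain ⟨u, hu1, hu2, hu3, hu4⟩ := h ℝ EE 1 le_rfl pap_pos
    {toE (lp.single 2 0 (1:ℝ)), toE (lp.single 2 1 (1:ℝ))} (Set.toFinite _).isCompact (1/24) (by norm_num)
  exact pap_neg u hu1 hu2 hu3 (hu4 _ (by simp)) (hu4 _ (by simp))

end Pool.Agent.H7.Pap
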