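import Pool.Agent.H7.Pap.Key

set_option autoImplicit false

open Filter Topology

namespace Pool.Agent.H7.Pap

/-- the Hilbert space -/
abbrev H0 := lp (fun _ : ℕ => ℝ) 2

noncomputable def th (k : ℕ) : ℝ := 1 / (((Nat.unpair k).1 : ℝ) + 1)

lemma th_nonneg (k : ℕ) : 0 ≤ th k := by unfold th; positivity
lemma th_le_one (k : ℕ) : th k ≤ 1 := by
  unfold th
  rw [div_le_one (by positivity)]
  have : (0:ℝ) ≤ ((Nat.unpair k).1 : ℝ) := Nat.cast_nonneg _
  linarith

lemma coord_le (x : H0) (i : ℕ) : |x i| ≤ ‖x‖ := by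
  have := lp.norm_apply_le_norm (E := fun _ : ℕ => ℝ) (p := 2) (by norm_num) x i
  simpa using this

/-- the functionals -/
noncomputable def phi (k : ℕ) : H0 →ₗ[ℝ] ℝ where
  toFun x := x 0 + th k * x 1 + x (k + 2)
  map_add' x y := by
    simp only [lp.coeFn_add, Pi.add_apply]; ring
  map_smul' c x := by
    simp only [lp.coeFn_smul, Pi.smul_apply, smul_eq_mul, RingHom.id_apply]; ring

lemma phi_apply (k : ℕ) (x : H0) : phi k x = x 0 + th k * x 1 + x (k + 2) := rfl

lemma phi_bound (k : ℕ) (x : H0) : |phi k x| ≤ 3 * ‖x‖ := by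
  rw [phi_apply]
  have h0 := coord_le x 0
  have h1 := coord_le x 1
  have h2 := coord_le x (k + 2)
  have h3 : |th k * x 1| ≤ ‖x‖ := by
    rw [abs_mul, abs_of_nonneg (th_nonneg k)]
    exact (mul_le_of_le_one_left (abs_nonneg _) (th_le_one k)).trans h1
  refine (abs_add_le _ _).trans ?_
  have := abs_add_le (x 0) (th k * x 1)
  linarith

noncomputable abbrev N0 (x : H0) : ℝ := NN phi x

lemma summ0 (x : H0) : Summable (fun k => (1/2:ℝ)^k * |phi k x|) := summ phi phi_bound x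

lemma N0_ge (x : H0) : ‖x‖ ≤ N0 x := by
  unfold N0 NN
  have : 0 ≤ ∑' k, (1/2:ℝ)^k * |phi k x| := tsum_nonneg fun k => by positivity
  linarith

lemma N0_le (x : H0) : N0 x ≤ 7 * ‖x‖ := by
  unfold N0 NN
  have : ∑' k, (1/2:ℝ)^k * |phi k x| ≤ ∑' k, (1/2:ℝ)^k * (3 * ‖x‖) :=
    (summ0 x).tsum_le_tsum (fun k => mul_le_mul_of_nonneg_left (phi_bound k x) (by positivity))
      (summable_geometric_two.mul_right _)
  rw [tsum_mul_right, tsum_geometric_two] at this
  linarith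

lemma N0_add (x y : H0) : N0 (x + y) ≤ N0 x + N0 y := by
  unfold N0 NN
  have h1 := norm_add_le x y
  have h2 : ∑' k, (1/2:ℝ)^k * |phi k (x + y)| ≤ ∑' k, (1/2:ℝ)^k * |phi k x| + ∑' k, (1/2:ℝ)^k * |phi k y| := by
    rw [← (summ0 x).tsum_add (summ0 y)]
    refine (summ0 (x + y)).tsum_le_tsum (fun k => ?_) ((summ0 x).add (summ0 y))
    rw [← mul_add, map_add]
    exact mul_le_mul_of_nonneg_left (abs_add_le _ _) (by positivity)
  linarith

lemma N0_smul (c : ℝ) (x : H0) : N0 (c • x) = |c| * N0 x := by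
  unfold N0 NN
  rw [mul_add, norm_smul, Real.norm_eq_abs, ← tsum_mul_left]
  congr 1
  refine tsum_congr fun k => ?_
  rw [map_smul, smul_eq_mul, abs_mul]; ring

lemma N0_zero : N0 0 = 0 := by
  have := N0_smul 0 0
  simpa using this

lemma N0_neg (x : H0) : N0 (-x) = N0 x := by
  have := N0_smul (-1) x
  simpa using this

/-- the renormed space -/
def EE : Type := H0

noncomputable instance : AddCommGroup EE := inferInstanceAs (AddCommGroup H0)
noncomputable instance : Module ℝ EE := inferInstanceAs (Module ℝ H0)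

noncomputable def toE : H0 ≃ₗ[ℝ] EE := LinearEquiv.refl ℝ H0

noncomputable def EEnorm : AddGroupNorm EE where
  toFun x := N0 (toE.symm x)
  map_zero' := by rw [map_zero, N0_zero]
  add_le' x y := by rw [map_add]; exact N0_add _ _
  neg' x := by rw [map_neg, N0_neg]
  eq_zero_of_map_eq_zero' x hx := by
    have h1 := N0_ge (toE.symm x)
    have h2 : ‖toE.symm x‖ = 0 := le_antisymm (by linarith [hx.le]) (norm_nonneg _)
    have h3 := norm_eq_zero.1 h2
    simpa using h3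

noncomputable instance : NormedAddCommGroup EE := AddGroupNorm.toNormedAddCommGroup EEnorm

lemma norm_EE (x : EE) : ‖x‖ = N0 (toE.symm x) := rfl

noncomputable instance : NormedSpace ℝ EE where
  norm_smul_le c x := by
    rw [norm_EE, norm_EE, map_smul, N0_smul, Real.norm_eq_abs]

noncomputable def ecl : H0 ≃L[ℝ] EE :=
  LinearEquiv.toContinuousLinearEquivOfBounds toE 7 1
    (fun x => by rw [norm_EE, LinearEquiv.symm_apply_apply]; exact N0_le x)
    (fun x => by rw [norm_EE, one_mul]; exact N0_ge _)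

instance : CompleteSpace EE :=
  (completeSpace_congr (e := ecl.toEquiv) ecl.isUniformEmbedding).1 inferInstance

instance sepH0 : TopologicalSpace.SeparableSpace H0 := by
  rw [← TopologicalSpace.isSeparable_univ_iff]
  have h1 : TopologicalSpace.IsSeparable (Set.range fun i : ℕ => (lp.single 2 i (1:ℝ) : H0)) :=
    (Set.countable_range _).isSeparable
  refine (h1.span (R := ℝ)).closure.mono ?_
  intro f _
  have h2 := (lp.hasSum_single (E := fun _ : ℕ => ℝ) (p := 2) (by norm_num) f).tendsto_sum_nat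
  refine mem_closure_of_tendsto h2 (Eventually.of_forall fun n => ?_)
  refine Submodule.sum_mem _ fun i _ => ?_
  have : (lp.single 2 i (f i) : H0) = (f i) • (lp.single 2 i (1:ℝ) : H0) := by
    rw [← lp.single_smul, smul_eq_mul, mul_one]
  rw [this]
  exact Submodule.smul_mem _ _ (Submodule.subset_span ⟨i, rfl⟩)

instance : TopologicalSpace.SeparableSpace EE :=
  ecl.surjective.denseRange.separableSpace ecl.continuous

/-- coordinate projections -/
noncomputable def Pn (n : ℕ) : H0 →ₗ[ℝ] H0 where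
  toFun x := ∑ i ∈ Finset.range n, lp.single 2 i (x i)
  map_add' x y := by
    rw [← Finset.sum_add_distrib]
    refine Finset.sum_congr rfl fun i _ => ?_
    rw [lp.coeFn_add, Pi.add_apply, lp.single_add]
  map_smul' c x := by
    rw [RingHom.id_apply, Finset.smul_sum]
    refine Finset.sum_congr rfl fun i _ => ?_
    rw [lp.coeFn_smul, Pi.smul_apply, lp.single_smul]

lemma Pn_apply (n : ℕ) (x : H0) : Pn n x = ∑ i ∈ Finset.range n, lp.single 2 i (x i) := rfl

lemma Pn_coord (n : ℕ) (x : H0) (j : ℕ) : (Pn n x) j = if j < n then x j else 0 := by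
  rw [Pn_apply, lp.coeFn_sum, Finset.sum_apply]
  simp only [lp.coeFn_single, Finset.sum_pi_single, Finset.mem_range]

lemma Pn_norm (n : ℕ) (x : H0) : ‖Pn n x‖ ≤ ‖x‖ := by
  have h1 := lp.norm_sum_single (E := fun _ : ℕ => ℝ) (p := 2) (by norm_num) x (Finset.range n)
  have h2 := lp.sum_rpow_le_norm_rpow (E := fun _ : ℕ => ℝ) (p := 2) (by norm_num) x (Finset.range n)
  rw [← h1, ← Pn_apply] at h2
  norm_num at h2
  have := abs_le_of_sq_le_sq h2 (norm_nonneg _)
  rwa [abs_of_nonneg (norm_nonneg _)] at this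

lemma Pn_idem (n : ℕ) (x : H0) : Pn n (Pn n x) = Pn n x := by
  ext j
  rw [Pn_coord, Pn_coord]
  split_ifs <;> rfl

lemma tail_sum (m : ℕ) : ∑' k, (if k < m then (0:ℝ) else (1/2)^k) = 2 * (1/2)^m ∧
    Summable (fun k => if k < m then (0:ℝ) else (1/2)^k) := by
  have hs : Summable (fun k => if k < m then (0:ℝ) else (1/2)^k) := by
    refine Summable.of_nonneg_of_le (fun k => ?_) (fun k => ?_) summable_geometric_two
    · split_ifs <;> positivity
    · split_ifs
      · positivity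
      · exact le_rfl
  refine ⟨?_, hs⟩
  rw [← hs.sum_add_tsum_nat_add m]
  have h1 : ∑ i ∈ Finset.range m, (if i < m then (0:ℝ) else (1/2)^i) = 0 := by
    refine Finset.sum_eq_zero fun i hi => ?_
    rw [if_pos (Finset.mem_range.1 hi)]
  have h2 : ∀ i : ℕ, (if i + m < m then (0:ℝ) else (1/2)^(i+m)) = (1/2)^i * (1/2)^m := by
    intro i
    rw [if_neg (by omega), pow_add]
  rw [h1, zero_add]
  simp_rw [h2]
  rw [tsum_mul_right, tsum_geometric_two]

lemma Pn_N (m : ℕ) (x : H0) : N0 (Pn (m + 2) x) ≤ (1 + 2 * (1/2)^m) * N0 x := by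
  have h1 := Pn_norm (m + 2) x
  have h2 : ∀ k, (1/2:ℝ)^k * |phi k (Pn (m + 2) x)| ≤ (1/2:ℝ)^k * |phi k x| +
      (if k < m then (0:ℝ) else (1/2)^k) * ‖x‖ := by
    intro k
    rw [phi_apply, Pn_coord, Pn_coord, Pn_coord, if_pos (by omega), if_pos (by omega)]
    by_cases hk : k < m
    · rw [if_pos (by omega), if_pos hk, zero_mul, add_zero, ← phi_apply]
    · rw [if_neg (by omega), if_neg hk, ← mul_add]
      refine mul_le_mul_of_nonneg_left ?_ (by positivity)
      rw [phi_apply]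
      have e : x 0 + th k * x 1 + 0 = (x 0 + th k * x 1 + x (k+2)) - x (k+2) := by ring
      rw [e]
      refine (abs_sub _ _).trans ?_
      linarith [coord_le x (k+2)]
  have h3 : ∑' k, (1/2:ℝ)^k * |phi k (Pn (m + 2) x)| ≤ ∑' k, (1/2:ℝ)^k * |phi k x| + 2 * (1/2)^m * ‖x‖ := by
    rw [← (tail_sum m).1, ← tsum_mul_right, ← (summ0 x).tsum_add ((tail_sum m).2.mul_right _)]
    exact (summ0 _).tsum_le_tsum h2 ((summ0 x).add ((tail_sum m).2.mul_right _))
  have h4 := N0_ge x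
  have h5 : 2 * (1/2 : ℝ)^m * ‖x‖ ≤ 2 * (1/2)^m * N0 x := mul_le_mul_of_nonneg_left h4 (by positivity)
  unfold N0 NN at *
  nlinarith

lemma Pn_tendsto (x : H0) : Tendsto (fun m => N0 (Pn (m + 2) x - x)) atTop (𝓝 0) := by
  have h2 := (lp.hasSum_single (E := fun _ : ℕ => ℝ) (p := 2) (by norm_num) x).tendsto_sum_nat
  have h3 : Tendsto (fun n => Pn n x) atTop (𝓝 x) := h2
  have h4 : Tendsto (fun m => Pn (m + 2) x) atTop (𝓝 x) := h3.comp (tendsto_add_atTop_nat 2)
  have h5 := (tendsto_iff_norm_sub_tendsto_zero.1 h4).const_mul 7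
  rw [mul_zero] at h5
  exact squeeze_zero (fun m => (norm_nonneg _).trans (N0_ge _)) (fun m => N0_le _) h5

/-- the projections on the renormed space -/
noncomputable def Qm (m : ℕ) : EE →L[ℝ] EE :=
  LinearMap.mkContinuous (toE.toLinearMap ∘ₗ Pn (m + 2) ∘ₗ toE.symm.toLinearMap) (1 + 2 * (1/2)^m)
    (fun x => by
      rw [norm_EE, norm_EE]
      simp only [LinearMap.comp_apply, LinearEquiv.coe_coe, LinearEquiv.symm_apply_apply]
      exact Pn_N m _)

lemma Qm_apply (m : ℕ) (x : EE) : Qm m x = toE (Pn (m + 2) (toE.symm x)) := rfl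

lemma Qm_norm (m : ℕ) : ‖Qm m‖ ≤ 1 + 2 * (1/2)^m :=
  LinearMap.mkContinuous_norm_le _ (by positivity) _

lemma Qm_idem (m : ℕ) : (Qm m).comp (Qm m) = Qm m := by
  ext x
  rw [ContinuousLinearMap.comp_apply, Qm_apply, Qm_apply, LinearEquiv.symm_apply_apply, Pn_idem]

lemma Qm_fin (m : ℕ) : FiniteDimensional ℝ (LinearMap.range (Qm m : EE →ₗ[ℝ] EE)) := by
  let g : (Fin (m + 2) → ℝ) →ₗ[ℝ] EE := toE.toLinearMap ∘ₗ
    ∑ i : Fin (m + 2), (LinearMap.proj i : (Fin (m + 2) → ℝ) →ₗ[ℝ] ℝ).smulRight (lp.single 2 (i : ℕ) (1:ℝ) : H0)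
  have h1 : LinearMap.range (Qm m : EE →ₗ[ℝ] EE) ≤ LinearMap.range g := by
    rintro _ ⟨x, rfl⟩
    refine ⟨fun i => (toE.symm x) i, ?_⟩
    have : ((Qm m : EE →ₗ[ℝ] EE) x) = toE (Pn (m + 2) (toE.symm x)) := rfl
    rw [this, Pn_apply]
    simp only [g, LinearMap.comp_apply, LinearEquiv.coe_coe]
    congr 1
    rw [LinearMap.sum_apply, Finset.sum_range]
    refine Finset.sum_congr rfl fun i _ => ?_
    rw [LinearMap.smulRight_apply, LinearMap.proj_apply, ← lp.single_smul, smul_eq_mul, mul_one]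
  exact Submodule.finiteDimensional_of_le h1

lemma Qm_tendsto (x : EE) : Tendsto (fun m => ‖Qm m x - x‖) atTop (𝓝 0) := by
  have := Pn_tendsto (toE.symm x)
  refine this.congr fun m => ?_
  rw [norm_EE, map_sub, Qm_apply, LinearEquiv.symm_apply_apply]

lemma pap_pos : ∀ δ : ℝ, 0 < δ → ∀ Q : Set EE, IsCompact Q → ∀ ε : ℝ, 0 < ε →
        ∃ u : EE →L[ℝ] EE, FiniteDimensional ℝ (LinearMap.range (u : EE →ₗ[ℝ] EE)) ∧
          u.comp u = u ∧ ‖u‖ ≤ 1 + δ ∧ ∀ x ∈ Q, ‖u x - x‖ ≤ ε := by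
  intro δ hδ Q hQ ε hε
  obtain ⟨t, ht, hcov⟩ := Metric.totallyBounded_iff.1 hQ.totallyBounded (ε / 8) (by positivity)
  have h1 : ∀ᶠ m : ℕ in atTop, ∀ y ∈ t, ‖Qm m y - y‖ < ε / 2 := by
    rw [eventually_all_finite ht]
    intro y _
    exact (Qm_tendsto y).eventually (gt_mem_nhds (by positivity))
  have h2 : ∀ᶠ m : ℕ in atTop, 2 * (1/2 : ℝ)^m < δ := by
    have : Tendsto (fun m : ℕ => 2 * (1/2 : ℝ)^m) atTop (𝓝 (2 * 0)) :=
      (tendsto_pow_atTop_nhds_zero_of_lt_one (by norm_num) (by norm_num)).const_mul 2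
    rw [mul_zero] at this
    exact this.eventually (gt_mem_nhds hδ)
  obtain ⟨m, hm1, hm2⟩ := (h1.and h2).exists
  refine ⟨Qm m, Qm_fin m, Qm_idem m, (Qm_norm m).trans (by linarith), fun x hx => ?_⟩
  obtain ⟨y, hy, hxy⟩ := Set.mem_iUnion₂.1 (hcov hx)
  have hxy' : ‖x - y‖ < ε / 8 := by rwa [Metric.mem_ball, dist_eq_norm] at hxy
  have h3 : Qm m x - x = Qm m (x - y) + (Qm m y - y) - (x - y) := by
    rw [map_sub]; abel
  have h4 : ‖Qm m (x - y)‖ ≤ 3 * ‖x - y‖ := by
    refine ((Qm m).le_opNorm _).trans ?_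
    refine mul_le_mul_of_nonneg_right ((Qm_norm m).trans ?_) (norm_nonneg _)
    have : (1/2 : ℝ)^m ≤ 1 := pow_le_one₀ (by norm_num) (by norm_num)
    linarith
  rw [h3]
  have h5 := norm_sub_le (Qm m (x - y) + (Qm m y - y)) (x - y)
  have h6 := norm_add_le (Qm m (x - y)) (Qm m y - y)
  have h7 := hm1 y hy
  linarith

end Pool.Agent.H7.Pap
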